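import Pool.Agent.H7.KSAT.Defs

/-!
# Saturation: the chain and the counting argument together
-/

set_option autoImplicit false

namespace Pool.H64.KST

open Finset Real
open Pool.Agent.H49.Ent Pool.Agent.H32.Dense Pool.STK Pool.KSAT

/-- Conditional entropies depend only on the law. -/
lemma CH_of_law {Ω₁ Ω₂ T A B : Type} [Fintype Ω₁] [Fintype Ω₂] {p₁ : Ω₁ → ℝ} {p₂ : Ω₂ → ℝ}
    {Z₁ : Ω₁ → T} {Z₂ : Ω₂ → T} (h₁ : ∀ w, 0 ≤ p₁ w) (h₂ : ∀ w, 0 ≤ p₂ w)
    (hZ : ∀ z, law p₁ Z₁ z = law p₂ Z₂ z) (f : T → A) (g : T → B) :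
    CH p₁ (fun w => f (Z₁ w)) (fun w => g (Z₁ w)) =
      CH p₂ (fun w => f (Z₂ w)) (fun w => g (Z₂ w)) := by
  have m1 : Marg (glue p₁ p₂ Z₁ Z₂) p₁ (fun w => w.1) := marg_fst h₁ hZ
  have m2 : Marg (glue p₁ p₂ Z₁ Z₂) p₂ (fun w => w.2) := marg_snd h₂ hZ
  have hQ : ∀ w, 0 ≤ glue p₁ p₂ Z₁ Z₂ w := glue_nonneg h₁ h₂
  have hz : ∀ w, 0 < glue p₁ p₂ Z₁ Z₂ w → Z₁ w.1 = Z₂ w.2 :=
    fun w hw => ((glue_pos_iff h₁ h₂ w).mp hw).2.2
  have e1 := m1.CH (fun w => f (Z₁ w)) (fun w => g (Z₁ w))
  have e2 := m2.CH (fun w => f (Z₂ w)) (fun w => g (Z₂ w))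
  rw [← e1, ← e2]
  refine CH_congr hQ ?_ ?_ ?_ ?_
  · intro w w' hw hw' h
    have h1 := (Prod.ext_iff.mp h).1
    simp only [hz w hw, hz w' hw'] at h1
    exact h1
  · intro w w' hw hw' h
    have h1 := (Prod.ext_iff.mp h).1
    simp only [← hz w hw, ← hz w' hw'] at h1
    exact h1
  · intro w w' hw hw' h
    simp only [hz w hw, hz w' hw'] at h
    exact h
  · intro w w' hw hw' h
    simp only [← hz w hw, ← hz w' hw'] at h
    exact h

/-- Subadditivity for a finite family. -/
lemma CH_pi {W T E : Type} [Fintype W] {q : W → ℝ} (hq : ∀ w, 0 ≤ q w) (Z : W → T) :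
    ∀ (n : ℕ) (F : Fin n → W → E), CH q (fun w i => F i w) Z ≤ ∑ i, CH q (F i) Z := by
  intro n
  induction n with
  | zero =>
    intro F
    have h : CH q (fun w i => F i w) Z = 0 :=
      CH_eq_zero hq (fun _ _ _ _ _ => Subsingleton.elim _ _)
    rw [h]
    simp
  | succ n ih =>
    intro F
    rw [Fin.sum_univ_succ]
    have h1 : CH q (fun w i => F i w) Z ≤
        CH q (fun w => (F 0 w, fun i : Fin n => F i.succ w)) Z := by
      refine CH_mono_left hq ?_
      intro w w' _ _ h
      have h2 := (Prod.ext_iff.mp h).1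
      have h3 := (Prod.ext_iff.mp h2).1
      have h4 := (Prod.ext_iff.mp h2).2
      funext i
      refine Fin.cases ?_ (fun i => ?_) i
      · exact h3
      · exact congrFun h4 i
    have h2 := CH_subadd hq (F 0) (fun w (i : Fin n) => F i.succ w) Z
    have h3 := ih (fun i => F i.succ)
    linarith

/-- Telescoping. -/
lemma tele (n : ℕ) (f : Fin (n + 1) → ℝ) :
    ∑ i : Fin n, (f i.succ - f i.castSucc) = f (Fin.last n) - f 0 := by
  induction n with
  | zero =>
    simp
  | succ n ih =>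
    rw [Fin.sum_univ_castSucc]
    have h := ih (fun i => f i.castSucc)
    simp only [← Fin.castSucc_succ] at h ⊢
    rw [h]
    simp only [Fin.succ_last, Fin.castSucc_zero]
    ring

theorem sat_thm (hChain : ChainStmt) (hGeo : GeoStmt) (hCnt : CntStmt) : SatStmt := by
  intro m n
  obtain ⟨C, hC, hcnt⟩ := hCnt m n
  refine ⟨C, hC, ?_⟩
  intro Ω β _ p u d b K a hp hd haK
  obtain ⟨g1, g2, g3, -, g5⟩ := hGeo m K Ω u d hd
  have : Nonempty (Fin (2 ^ K)) := ⟨⟨0, by positivity⟩⟩
  obtain ⟨W, instW, q, L, L', s, t0, x, b0, hch, hlaw, hent⟩ :=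
    hChain Ω (Fin (2 ^ K)) β (Fin m → ℤ) (Fin m → ℤ) p (XX u d K K) (Fl d K) b (cc m) hp
      (g5 p hp) n
  refine ⟨W, instW, q, L, L', s, t0, x, b0, hch, ?_⟩
  have h0 := hch.isLaw.nonneg
  have hcard : Real.log (Fintype.card (Fin (2 ^ K)) : ℝ) = K * Real.log 2 := by
    rw [Fintype.card_fin]
    push_cast
    rw [Real.log_pow]
  rw [hcard] at hent
  have heps : epsK p u d b K = epsX p (XX u d K K) (Fl d K) b := rfl
  rw [← heps] at hent
  -- the parts of the chain
  set S : W → Fin n → Fin (2 ^ K) := fun w i => s i w with hS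
  set DD : W → Fin n → (Fin m → ℤ) × (Fin m → ℤ) :=
    fun w i => (Fl d K (L i w), Fl d K (L' i w)) with hDD
  set Z : W → β × Fin (2 ^ K) × (Fin m → ℤ) := fun w => (b0 w, t0 w, x 0 w) with hZ
  have k1 : CH q (fun w i => (s i w, Fl d K (L i w), Fl d K (L' i w))) Z ≤
      CH q (fun w => (S w, DD w)) Z := by
    refine CH_mono_left h0 ?_
    intro w w' _ _ h
    have h2 := (Prod.ext_iff.mp h).1
    have h3 := (Prod.ext_iff.mp h2).1
    have h4 := (Prod.ext_iff.mp h2).2
    funext i
    have h5 := congrFun h3 i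
    have h6 := congrFun h4 i
    simp only [hS, hDD, Prod.mk.injEq] at h5 h6 ⊢
    exact ⟨h5, h6.1, h6.2⟩
  have k2 := CH_chain h0 S DD Z
  have k3 : CH q DD Z ≤ CH q DD b0 := by
    refine CH_mono_cond h0 ?_
    intro w w' _ _ h
    exact (Prod.ext_iff.mp h).1
  have k4 : CH q S (fun w => (DD w, Z w)) ≤ n * (K * Real.log 2) := by
    have h := CH_le_card h0 hch.isLaw.sum_one S (fun w => (DD w, Z w))
      (fun _ => Finset.univ) (fun _ _ => Finset.mem_univ _)
    refine h.trans (le_of_eq ?_)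
    rw [Ex_const hch.isLaw.sum_one, Finset.card_univ, Fintype.card_fun, Fintype.card_fin,
      Fintype.card_fin]
    push_cast
    rw [Real.log_pow, Real.log_pow]
  have k5 : CH q DD b0 ≤ n * (2 * CH p (Fl d K) b) := by
    have h := CH_pi h0 b0 n (fun i w => (Fl d K (L i w), Fl d K (L' i w)))
    refine h.trans ?_
    have h1 : ∀ i ∈ (Finset.univ : Finset (Fin n)),
        CH q (fun w => (Fl d K (L i w), Fl d K (L' i w))) b0 ≤ 2 * CH p (Fl d K) b := by
      intro i _
      have a1 := CH_subadd h0 (fun w => Fl d K (L i w)) (fun w => Fl d K (L' i w)) b0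
      have a2 : CH q (fun w => Fl d K (L i w)) b0 = CH p (Fl d K) b := by
        rw [← (hch.marg i).CH (Fl d K) b]
        refine CH_congr h0 (fun _ _ _ _ h => (Prod.ext_iff.mp h).1)
          (fun _ _ _ _ h => (Prod.ext_iff.mp h).1) ?_ ?_
        · intro w w' hw hw' h
          simp only [hch.labL w hw i, hch.labL w' hw' i]
          exact h
        · intro w w' hw hw' h
          simp only [hch.labL w hw i, hch.labL w' hw' i] at h
          exact h
      have a3 : CH q (fun w => Fl d K (L' i w)) b0 = CH p (Fl d K) b := by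
        rw [← (hch.marg' i).CH (Fl d K) b]
        refine CH_congr h0 (fun _ _ _ _ h => (Prod.ext_iff.mp h).1)
          (fun _ _ _ _ h => (Prod.ext_iff.mp h).1) ?_ ?_
        · intro w w' hw hw' h
          simp only [hch.labL' w hw i, hch.labL' w' hw' i]
          exact h
        · intro w w' hw hw' h
          simp only [hch.labL' w hw i, hch.labL' w' hw' i] at h
          exact h
      linarith
    refine (Finset.sum_le_sum h1).trans (le_of_eq ?_)
    rw [Finset.sum_const, Finset.card_univ, Fintype.card_fin, nsmul_eq_mul]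
  refine ⟨?_, ?_⟩
  · linarith [k1, k2, k3, k4, k5, hent]
  · -- the counting argument
    set Δ : W → Fin n → Fin m → ℤ :=
      fun w i j => Fl d K (L' i w) j - Fl d K (L i w) j with hΔ
    have c1 : ∀ w i j, |(Δ w i j : ℝ)| ≤ 3 * 2 ^ K := by
      intro w i j
      simp only [hΔ, Int.cast_sub]
      exact g3 _ _ _
    have c2 : ∀ w, 0 < q w → ∀ j, |2 ^ K * ((x (Fin.last n) w j : ℝ) - x 0 w j) -
        ∑ i, (((t0 w : ℕ) : ℝ) - ((S w i : ℕ) : ℝ)) * Δ w i j| ≤ 4 * n * 2 ^ K := by
      intro w hw j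
      have ht := tele n (fun i => (x i w j : ℝ))
      rw [← ht, Finset.mul_sum, ← Finset.sum_sub_distrib]
      refine (Finset.abs_sum_le_sum_abs _ _).trans ?_
      have hb : ∀ i ∈ (Finset.univ : Finset (Fin n)),
          |2 ^ K * ((x i.succ w j : ℝ) - x i.castSucc w j) -
            (((t0 w : ℕ) : ℝ) - ((S w i : ℕ) : ℝ)) * Δ w i j| ≤ 4 * 2 ^ K := by
        intro i _
        have h1 := g2 (s i w) (t0 w) (L i w) (L' i w) (hch.cross w hw i) j
        have h2 := hch.start w hw i
        have h3 := hch.stop w hw i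
        rw [← h2, ← h3]
        simp only [hΔ, hS, Int.cast_sub]
        exact h1
      refine (Finset.sum_le_sum hb).trans (le_of_eq ?_)
      rw [Finset.sum_const, Finset.card_univ, Fintype.card_fin, nsmul_eq_mul]
      ring
    have c3 : n * (K * Real.log 2) - n * (4 * epsK p u d b K + cc m) ≤
        CH q S (fun w => (Δ w, b0 w, t0 w, x 0 w)) := by
      have h1 : CH q S (fun w => (DD w, Z w)) ≤ CH q S (fun w => (Δ w, b0 w, t0 w, x 0 w)) := by
        refine CH_mono_cond h0 ?_
        intro w w' _ _ h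
        have h2 := (Prod.ext_iff.mp h).1
        have h3 := (Prod.ext_iff.mp h).2
        refine Prod.ext ?_ h3
        funext i j
        have h4 := congrFun h2 i
        simp only [hDD, Prod.mk.injEq] at h4
        simp only [hΔ]
        rw [h4.1, h4.2]
      linarith [k1, k2, k3, k5, hent]
    have c4 := hcnt W β q Δ K a S t0 (x 0) (x (Fin.last n)) b0
      (n * (4 * epsK p u d b K + cc m)) hch.isLaw haK c1 c2 c3
    have c5 : CH q (x (Fin.last n))
        (fun w => ((fun j => x (Fin.last n) w j / 2 ^ a), b0 w, t0 w)) = hKa p u d b K a := by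
      have h1 := CH_of_law (Z₁ := fun w => (b0 w, t0 w, x (Fin.last n) w))
        (Z₂ := lab (XX u d K K) b) h0
        (fun w : Ω × Fin (2 ^ K) => by
          unfold pt1 pr2 un
          have := hp.nonneg w.1
          positivity)
        (hlaw (Fin.last n)) (fun z => z.2.2)
        (fun z => ((fun j => z.2.2 j / 2 ^ a), z.1, z.2.1))
      refine h1.trans ?_
      have h2 : (fun w : Ω × Fin (2 ^ K) =>
          ((fun j => (lab (XX u d K K) b w).2.2 j / 2 ^ a), (lab (XX u d K K) b w).1,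
            (lab (XX u d K K) b w).2.1)) =
          fun w : Ω × Fin (2 ^ K) => (XX u d K (K - a) w.2 w.1, b w.1, w.2) := by
        funext w
        refine Prod.ext ?_ rfl
        funext j
        exact (g1 a haK w.2 w.1 j).symm
      rw [h2]
      rfl
    rw [c5] at c4
    have c6 : Ex q (fun w => (rk (2 ^ a) (fun i j => (Δ w i j : ℝ)) : ℝ)) =
        Ex q (fun w => (rk (2 ^ a)
          (fun i j => (Fl d K (L' i w) j : ℝ) - Fl d K (L i w) j) : ℝ)) := by
      simp only [hΔ, Int.cast_sub]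
    rw [c6] at c4
    exact c4

end Pool.H64.KST
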